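import Pool.Agent.P8H24.PG.Stm

/-!
# PG/GR2: an element acting nilpotently on a chain lies in a nilpotent normal subgroup
-/

set_option autoImplicit false

namespace Pool.Agent.P8H89.PG

open Pool.Agent.Helper611.PcGrp Pool.Agent.Helper611.PcFit Pool.Agent.P8H24.PG
open scoped commutatorElement

variable {S : Type} [Group S]

theorem step (hG : MaxC S) (a : S) (B C : Subgroup S)
    (hBC : Subgroup.zpowers a ⊔ B ≤ Subgroup.zpowers a ⊔ C)
    (h1 : ∀ y ∈ C, ∀ b ∈ B, y * b * y⁻¹ ∈ B) (h2 : ∀ y ∈ C, y⁻¹ * (a * y * a⁻¹) ∈ B)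
    (ha : a ∈ fit (Subgroup.zpowers a ⊔ B)) : a ∈ fit (Subgroup.zpowers a ⊔ C) := by
  have key : ∀ y ∈ C, ∀ x ∈ Subgroup.zpowers a ⊔ B, y * x * y⁻¹ ∈ Subgroup.zpowers a ⊔ B := by
    intro y hy
    have h3 : Subgroup.zpowers a ⊔ B ≤
        (Subgroup.zpowers a ⊔ B).comap (MulAut.conj y).toMonoidHom := by
      refine sup_le ?_ ?_
      · rw [Subgroup.zpowers_le, Subgroup.mem_comap]
        have h4 := h2 y⁻¹ (C.inv_mem hy)
        have h5 : (MulAut.conj y).toMonoidHom a = y⁻¹⁻¹ * (a * y⁻¹ * a⁻¹) * a := by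
          change y * a * y⁻¹ = _
          group
        rw [h5]
        exact Subgroup.mul_mem _ (Subgroup.mem_sup_right h4)
          (Subgroup.mem_sup_left (Subgroup.mem_zpowers a))
      · intro b hb
        rw [Subgroup.mem_comap]
        exact Subgroup.mem_sup_right (h1 y hy b hb)
    intro x hx
    exact h3 hx
  have hn : Subgroup.zpowers a ⊔ C ≤
      Subgroup.normalizer ((Subgroup.zpowers a ⊔ B : Subgroup S) : Set S) := by
    refine sup_le (le_sup_left.trans Subgroup.le_normalizer) ?_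
    intro y hy
    rw [Subgroup.mem_normalizer_iff]
    intro x
    refine ⟨key y hy x, fun h => ?_⟩
    have h3 := key y⁻¹ (C.inv_mem hy) _ h
    have h4 : y⁻¹ * (y * x * y⁻¹) * y⁻¹⁻¹ = x := by group
    rwa [h4] at h3
  rw [fit_of_normal hG hBC hn] at ha
  exact ha.2

/-- the elements of `A` which are mapped to `B` by `D` -/
def pre (a : S) (A B : Subgroup S) (h1 : ∀ y ∈ A, ∀ b ∈ B, y * b * y⁻¹ ∈ B) : Subgroup S where
  carrier := {x | x ∈ A ∧ x⁻¹ * (a * x * a⁻¹) ∈ B}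
  mul_mem' := by
    rintro x y ⟨hx, hx'⟩ ⟨hy, hy'⟩
    refine ⟨A.mul_mem hx hy, ?_⟩
    have e : (x * y)⁻¹ * (a * (x * y) * a⁻¹) =
        (y⁻¹ * (x⁻¹ * (a * x * a⁻¹)) * y⁻¹⁻¹) * (y⁻¹ * (a * y * a⁻¹)) := by group
    rw [e]
    exact B.mul_mem (h1 _ (A.inv_mem hy) _ hx') hy'
  one_mem' := ⟨A.one_mem, by simp⟩
  inv_mem' := by
    rintro x ⟨hx, hx'⟩
    refine ⟨A.inv_mem hx, ?_⟩
    have e : x⁻¹⁻¹ * (a * x⁻¹ * a⁻¹) = x * (x⁻¹ * (a * x * a⁻¹))⁻¹ * x⁻¹ := by group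
    rw [e]
    exact h1 _ hx _ (B.inv_mem hx')

theorem climb (hG : MaxC S) (a : S) (A C : Subgroup S) (hA : A.Normal) (hAC : ⁅A, A⁆ ≤ C) :
    ∀ (k : ℕ) (B : Subgroup S), C ≤ B → B ≤ A → (∀ x ∈ B, a * x * a⁻¹ ∈ B) →
      (∀ x ∈ A, (fun y => y⁻¹ * (a * y * a⁻¹))^[k] x ∈ B) →
      a ∈ fit (Subgroup.zpowers a ⊔ B) → a ∈ fit (Subgroup.zpowers a ⊔ A) := by
  have hD : ∀ x ∈ A, x⁻¹ * (a * x * a⁻¹) ∈ A := fun x hx =>
    A.mul_mem (A.inv_mem hx) (hA.conj_mem x hx a)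
  have hDk : ∀ k : ℕ, ∀ x ∈ A, (fun y => y⁻¹ * (a * y * a⁻¹))^[k] x ∈ A := by
    intro k
    induction k with
    | zero => exact fun x hx => hx
    | succ k ih =>
      intro x hx
      rw [Function.iterate_succ_apply']
      exact hD _ (ih x hx)
  intro k
  induction k with
  | zero =>
    intro B _ hBA _ hk ha
    have : B = A := le_antisymm hBA hk
    rwa [this] at ha
  | succ k ih =>
    intro B hCB hBA haB hk ha
    have h1 : ∀ y ∈ A, ∀ b ∈ B, y * b * y⁻¹ ∈ B := by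
      intro y hy b hb
      have h2 : ⁅y, b⁆ ∈ C := hAC (Subgroup.commutator_mem_commutator hy (hBA hb))
      have e : y * b * y⁻¹ = ⁅y, b⁆ * b := by
        rw [commutatorElement_def]
        group
      rw [e]
      exact B.mul_mem (hCB h2) hb
    have hBp : B ≤ pre a A B h1 := fun x hx => ⟨hBA hx, B.mul_mem (B.inv_mem hx) (haB x hx)⟩
    refine ih (pre a A B h1) (hCB.trans hBp) (fun x hx => hx.1) ?_ ?_ ?_
    · rintro x ⟨hx, hx'⟩
      refine ⟨hA.conj_mem x hx a, ?_⟩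
      have e : (a * x * a⁻¹)⁻¹ * (a * (a * x * a⁻¹) * a⁻¹) = a * (x⁻¹ * (a * x * a⁻¹)) * a⁻¹ := by
        group
      rw [e]
      exact haB _ hx'
    · intro x hx
      refine ⟨hDk k x hx, ?_⟩
      have h2 := hk x hx
      rw [Function.iterate_succ_apply'] at h2
      exact h2
    · exact step hG a B _ (sup_le_sup_left hBp _) (fun y hy b hb => h1 y hy.1 b hb)
        (fun y hy => hy.2) ha

theorem nil_zpowers (a : S) : Group.IsNilpotent ↥(Subgroup.zpowers a) := by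
  rw [Subgroup.isNilpotent_iff_lowerCentralSeries]
  refine ⟨1, ?_⟩
  rw [Subgroup.lowerCentralSeries_succ, Subgroup.lowerCentralSeries_zero, eq_bot_iff,
    Subgroup.commutator_le]
  intro x hx y hy
  obtain ⟨m, rfl⟩ := Subgroup.mem_zpowers_iff.mp hx
  obtain ⟨n, rfl⟩ := Subgroup.mem_zpowers_iff.mp hy
  rw [Subgroup.mem_bot, commutatorElement_eq_one_iff_commute]
  exact (Commute.refl a).zpow_zpow m n

/-- **GR2.** -/
theorem gr2 : S_GR2 := by
  intro S _ hG a N l hl hN h0 hlast hanti hfirst hcomm hnil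
  have key : ∀ j : ℕ, ∀ i : ℕ, 1 ≤ i → i + j = l → a ∈ fit (Subgroup.zpowers a ⊔ N i) := by
    intro j
    induction j with
    | zero =>
      intro i _ hi
      rw [add_zero] at hi
      rw [hi, hlast, sup_bot_eq]
      exact le_fit ⟨le_rfl, Subgroup.le_normalizer, nil_zpowers a⟩ (Subgroup.mem_zpowers a)
    | succ j ih =>
      intro i hi hij
      obtain ⟨k, hk⟩ := hnil i hi
      exact climb hG a (N i) (N (i + 1)) (hN i) (hcomm i hi) k (N (i + 1)) le_rfl (hanti i)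
        (fun x hx => (hN (i + 1)).conj_mem x hx a) hk (ih (i + 1) (by omega) (by omega))
  have h1 := key (l - 1) 1 le_rfl (by omega)
  have h2 : a ∈ fit (Subgroup.zpowers a ⊔ (⊤ : Subgroup S)) :=
    step hG a (N 1) ⊤ (sup_le_sup_left le_top _) (fun y _ b hb => (hN 1).conj_mem b hb y)
      (fun y _ => hfirst y) h1
  rw [sup_top_eq] at h2
  have h3 := fit_adm hG (⊤ : Subgroup S)
  refine ⟨fit ⊤, ?_, h3.2.2, h2⟩
  rw [← Subgroup.normalizer_eq_top_iff]
  exact top_le_iff.mp h3.2.1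

end Pool.Agent.P8H89.PG
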