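import Pool.Agent.P8H24.PG.Stm

/-!
# PG/GR3: nilpotency of the orbits of an automorphism with a good chain
-/

set_option autoImplicit false

namespace Pool.Agent.P8H89.PG

open Pool.Agent.Helper611.PcGrp Pool.Agent.Helper611.PcFit Pool.Agent.P8H24.PG
open Pool.Agent.Helper611.PcChain
open scoped commutatorElement

variable {Γ : Type} [Group Γ]

theorem inv_iff (hG : MaxC Γ) (σ : MulAut Γ) (N : Subgroup Γ) (h : ∀ x ∈ N, σ x ∈ N) :
    ∀ x, σ x ∈ N ↔ x ∈ N := by
  have hwf := hG.wf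
  rw [wellFoundedGT_iff_monotone_chain_condition] at hwf
  have hmem : ∀ (n : ℕ) (x : Γ), x ∈ N.comap (σ ^ n : MulAut Γ).toMonoidHom ↔
      (σ ^ n : MulAut Γ) x ∈ N := fun _ _ => Iff.rfl
  have hmono : Monotone fun n : ℕ => N.comap (σ ^ n : MulAut Γ).toMonoidHom := by
    refine monotone_nat_of_le_succ fun n x hx => ?_
    rw [hmem] at hx ⊢
    rw [pow_succ']
    exact h _ hx
  obtain ⟨n, hn⟩ := hwf ⟨_, hmono⟩
  intro x
  refine ⟨fun hx => ?_, h x⟩
  obtain ⟨y, rfl⟩ : ∃ y, (σ ^ n : MulAut Γ) y = x := (σ ^ n : MulAut Γ).surjective x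
  have h2 : y ∈ N.comap (σ ^ (n + 1) : MulAut Γ).toMonoidHom := by
    rw [hmem, pow_succ']
    exact hx
  have h4 : N.comap (σ ^ n : MulAut Γ).toMonoidHom =
      N.comap (σ ^ (n + 1) : MulAut Γ).toMonoidHom := hn (n + 1) (Nat.le_succ n)
  rw [← h4, hmem] at h2
  exact h2

theorem iter_iff {f : Γ → Γ} {N : Subgroup Γ} (h : ∀ x, f x ∈ N ↔ x ∈ N) (m : ℕ) (x : Γ) :
    (f^[m]) x ∈ N ↔ x ∈ N := by
  induction m with
  | zero => rfl
  | succ m ih => rw [Function.iterate_succ_apply', h, ih]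

theorem gr3_first (σ : Γ →* Γ) (m : ℕ) (N : ℕ → Subgroup Γ) (l : ℕ) (h : GoodChain σ m N l) :
    ∃ k : ℕ, ∀ g, (diff σ m)^[k] g = 1 := by
  have key : ∀ i : ℕ, ∃ k : ℕ, ∀ g, (diff σ m)^[k] g ∈ N i := by
    intro i
    induction i with
    | zero => exact ⟨0, fun g => by rw [h.zero]; exact Subgroup.mem_top _⟩
    | succ i ih =>
      rcases Nat.eq_zero_or_pos i with rfl | hi
      · exact ⟨1, fun g => h.first g⟩
      · obtain ⟨k, hk⟩ := ih
        obtain ⟨k', hk'⟩ := h.nil i hi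
        refine ⟨k' + k, fun g => ?_⟩
        rw [Function.iterate_add_apply]
        exact hk' _ (hk g)
  obtain ⟨k, hk⟩ := key l
  refine ⟨k, fun g => ?_⟩
  have := hk g
  rwa [h.last, Subgroup.mem_bot] at this

theorem conj_aux {S : Type} [Group S] (a x u v : S) (hx : x = u * v) (hc : a * v = v * a) :
    x⁻¹ * (a * x * a⁻¹) = v⁻¹ * (u⁻¹ * (a * u * a⁻¹)) * v⁻¹⁻¹ := by
  have h : v * a⁻¹ = a⁻¹ * v := by
    rw [eq_inv_mul_iff_mul_eq, ← mul_assoc, hc, mul_assoc, mul_inv_cancel, mul_one]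
  rw [hx, inv_inv, mul_inv_rev]
  simp only [mul_assoc]
  rw [h]

/-- **GR3.** -/
theorem gr3 (hGR2 : S_GR2) (hMAX : S_MAX) : S_GR3 := by
  intro Γ _ hG σ m N l h
  refine ⟨gr3_first _ m N l h, fun g => ?_⟩
  obtain ⟨τ, hτ⟩ : ∃ τ : MulAut Γ, ∀ x, τ x = (σ.toMonoidHom^[m]) x := by
    refine ⟨(σ : MulAut Γ) ^ m, ?_⟩
    clear h
    induction m with
    | zero => exact fun x => rfl
    | succ m ih =>
      intro x
      rw [pow_succ', Function.iterate_succ_apply', ← ih x]
      rfl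
  obtain ⟨φ, hφ⟩ : ∃ φ : Multiplicative ℤ →* MulAut Γ, φ (Multiplicative.ofAdd 1) = τ :=
    ⟨zpowersHom (MulAut Γ) τ, by simp⟩
  obtain ⟨a, ha⟩ : ∃ a : Γ ⋊[φ] Multiplicative ℤ, a = SemidirectProduct.inr (Multiplicative.ofAdd 1) :=
    ⟨_, rfl⟩
  have hconj : ∀ x : Γ, a * SemidirectProduct.inl x * a⁻¹ = SemidirectProduct.inl (τ x) := by
    intro x
    rw [ha, ← hφ, SemidirectProduct.inl_aut, map_inv]
  have hD : ∀ x : Γ, (SemidirectProduct.inl x : Γ ⋊[φ] Multiplicative ℤ)⁻¹ *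
      (a * SemidirectProduct.inl x * a⁻¹) = SemidirectProduct.inl (diff σ.toMonoidHom m x) := by
    intro x
    rw [hconj, ← map_inv, ← map_mul]
    unfold diff
    rw [hτ]
  have hτN : ∀ i, ∀ x, τ x ∈ N i ↔ x ∈ N i := by
    intro i x
    rw [hτ]
    exact iter_iff (f := σ.toMonoidHom) (inv_iff hG σ (N i) (h.inv i)) m x
  have hφN : ∀ (n : Multiplicative ℤ) (i : ℕ) (x : Γ), x ∈ N i → φ n x ∈ N i := by
    have h1 : ∀ i, ∀ n : ℤ, ∀ x, x ∈ N i → (τ ^ n) x ∈ N i := by
      intro i n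
      induction n using Int.induction_on with
      | zero => exact fun x hx => hx
      | succ k ih =>
        intro x hx
        rw [zpow_add_one]
        exact ih _ ((hτN i x).mpr hx)
      | pred k ih =>
        intro x hx
        rw [zpow_sub_one]
        refine ih _ ((hτN i (τ⁻¹ x)).mp ?_)
        rw [MulAut.apply_inv_self]
        exact hx
    intro n i x hx
    have h2 : φ n = τ ^ (Multiplicative.toAdd n) := by
      rw [← hφ, ← map_zpow, ← ofAdd_zsmul]
      simp
    rw [h2]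
    exact h1 i _ x hx
  obtain ⟨N', hN'0, hN'⟩ : ∃ N' : ℕ → Subgroup (Γ ⋊[φ] Multiplicative ℤ), N' 0 = ⊤ ∧
      ∀ i, 1 ≤ i → N' i = (N i).map SemidirectProduct.inl :=
    ⟨fun i => if i = 0 then ⊤ else (N i).map SemidirectProduct.inl, if_pos rfl,
      fun i hi => if_neg (by omega)⟩
  have hnorm : ∀ i, (N' i).Normal := by
    intro i
    rcases Nat.eq_zero_or_pos i with rfl | hi
    · rw [hN'0]
      infer_instance
    · rw [hN' i hi]
      refine ⟨?_⟩
      rintro _ ⟨x, hx, rfl⟩ s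
      refine ⟨s.left * φ s.right x * s.left⁻¹, (h.normal i).conj_mem _ (hφN _ i x hx) _, ?_⟩
      have e : s = SemidirectProduct.inl s.left * SemidirectProduct.inr s.right :=
        (SemidirectProduct.inl_left_mul_inr_right s).symm
      rw [map_mul, map_mul, SemidirectProduct.inl_aut, map_inv, map_inv]
      conv_rhs => rw [e]
      group
  rcases Nat.eq_zero_or_pos l with rfl | hl
  · have h1 : (⊤ : Subgroup Γ) = ⊥ := h.zero.symm.trans h.last
    have h2 : Subsingleton Γ := by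
      rw [← Subgroup.subsingleton_iff]
      exact subsingleton_of_bot_eq_top h1.symm
    infer_instance
  obtain ⟨F, hF, hFn, haF⟩ := hGR2 (Γ ⋊[φ] Multiplicative ℤ) (hMAX Γ hG φ) a N' l hl hnorm hN'0
    (by rw [hN' l hl, h.last, Subgroup.map_bot])
    (by
      intro i
      rcases Nat.eq_zero_or_pos i with rfl | hi
      · rw [hN'0]; exact le_top
      · rw [hN' i hi, hN' (i + 1) (by omega)]
        exact Subgroup.map_mono (h.anti i))
    (by
      intro x
      have h1 := hnorm 1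
      have e : x = SemidirectProduct.inl x.left * SemidirectProduct.inr x.right :=
        (SemidirectProduct.inl_left_mul_inr_right x).symm
      have hc : a * SemidirectProduct.inr x.right = SemidirectProduct.inr x.right * a := by
        rw [ha, ← map_mul, ← map_mul, mul_comm]
      have e2 := conj_aux a x _ _ e hc
      rw [e2]
      refine h1.conj_mem _ ?_ _
      rw [hD, hN' 1 le_rfl]
      exact ⟨_, h.first _, rfl⟩)
    (by
      intro i hi
      rw [hN' i hi, hN' (i + 1) (by omega), ← Subgroup.map_commutator]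
      exact Subgroup.map_mono (h.comm i hi))
    (by
      intro i hi
      obtain ⟨k, hk⟩ := h.nil i hi
      refine ⟨k, ?_⟩
      rw [hN' i hi, hN' (i + 1) (by omega)]
      rintro _ ⟨x, hx, rfl⟩
      refine ⟨_, hk x hx, ?_⟩
      clear hk hx
      induction k generalizing x with
      | zero => rfl
      | succ k ih =>
        rw [Function.iterate_succ_apply, Function.iterate_succ_apply, ih, hD])
  have hsub : (Subgroup.closure {x : Γ | ∃ i : ℕ, x = (diff σ.toMonoidHom m)^[i + 1] g}).map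
      (SemidirectProduct.inl : Γ →* Γ ⋊[φ] Multiplicative ℤ) ≤ F := by
    rw [Subgroup.map_le_iff_le_comap, Subgroup.closure_le]
    rintro _ ⟨i, rfl⟩
    rw [SetLike.mem_coe, Subgroup.mem_comap, Function.iterate_succ_apply', ← hD]
    have e : ∀ y : Γ ⋊[φ] Multiplicative ℤ, y⁻¹ * (a * y * a⁻¹) = (y⁻¹ * a * y⁻¹⁻¹) * a⁻¹ := by
      intro y
      group
    rw [e]
    exact F.mul_mem (hF.conj_mem a haF _) (F.inv_mem haF)
  have h5 := nil_of_le hsub hFn
  exact (Group.isNilpotent_congr (Subgroup.equivMapOfInjective _ _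
    SemidirectProduct.inl_injective)).mpr h5

end Pool.Agent.P8H89.PG
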